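import Pool.Agent.Results.MP_4011c3_nt.AlmostAllAlmostPrime
import Pool.Agent.Q138.PS.TW

/-!
# `⌊α P(n)⌋ = p + m q + r` with `p`, `q` prime and `q ^ 2 - 2` almost prime

There is an absolute constant `K` such that for `q ≥ 2`, outside a set of real numbers of Hausdorff dimension at most
`q / (q + 1 / (q 2 ^ (q - 1)))` (that is `8 / 9` for `q = 2`), every `α > 0` has the following property for each `m ≥ 1`. For
ALL integral polynomials `P` of degree `q` with positive leading coefficient and coefficients of size at most `N ^ η`, and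
for all but `O(N / log ^ U N)` of the `n ≤ N` (uniformly in `P`): if the pair `(m, ⌊α P(n)⌋)` is admissible, there is a prime
`p < ⌊α P(n)⌋` such that `ℓ = ⌊(⌊α P(n)⌋ - p) / m⌋` is prime and `ℓ ^ 2 - 2` has no prime factor below
`⌊α P(n)⌋ ^ (1 / K)` and fewer than `2 K` prime factors.
-/

set_option autoImplicit false

namespace Pool.Agent.Results.MP_4011c3_nt.AlongRealMultiples

open Finset Filter Topology
open Pool.Agent.Q138.PS
open Pool.Agent.Results.MP_4011c3_nt.AlmostAllAlmostPrime (Admissible Rep)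

open Classical in
/-- the number of the `1 ≤ n ≤ N` for which `(m, ⌊α P(n)⌋)` is admissible and not represented with the constant `K` -/
noncomputable def exceptions (K m : ℕ) (α : ℝ) (P : Polynomial ℤ) (N : ℕ) : ℕ :=
  ((Icc 1 N).filter fun n : ℕ => Admissible m ⌊α * ((P.eval (n : ℤ) : ℤ) : ℝ)⌋₊ ∧
    ¬ Rep K m ⌊α * ((P.eval (n : ℤ) : ℤ) : ℝ)⌋₊).card

/-- the exceptional numbers -/
def bad (K m n : ℕ) : Prop := Admissible m n ∧ ¬ Rep K m n

/-- **Theorem.** There is an absolute constant `K` such that for each `q ≥ 2` there is a set `E` of Hausdorff dimension at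
most `q / (q + 1 / (q 2 ^ (q - 1)))` such that for each `α > 0` outside `E` and each `m ≥ 1` there is `η > 0` with the
following property: for each `U` there is `C` such that for all large `N` and ALL `P ∈ ℤ[X]` of degree `q` with positive
leading coefficient and coefficients of size at most `N ^ η`, for all but at most `C N / log ^ U N` of the `n ≤ N` the
number `k = ⌊α P(n)⌋` is either not admissible for `m` or there is a prime `p < k` such that `ℓ = ⌊(k - p) / m⌋` is prime
and `ℓ ^ 2 - 2` has fewer than `2 K` prime factors, all larger than `k ^ (1 / K)`. -/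
theorem result : ∃ K : ℕ, 1 ≤ K ∧ ∀ q : ℕ, 2 ≤ q →
    ∃ E : Set ℝ, dimH E ≤ ENNReal.ofReal (q / (q + 1 / ((q : ℝ) * 2 ^ (q - 1)))) ∧ ∀ α : ℝ, 0 < α → α ∉ E →
      ∀ m : ℕ, 1 ≤ m → ∃ η : ℝ, 0 < η ∧ ∀ U : ℕ, ∃ C : ℝ, ∀ᶠ N : ℕ in atTop, ∀ P : Polynomial ℤ,
        P.natDegree = q → 0 < P.leadingCoeff → (∀ j, |((P.coeff j : ℤ) : ℝ)| ≤ (N : ℝ) ^ η) →
        (exceptions K m α P N : ℝ) ≤ C * (N / Real.log N ^ U) := by
  classical
  obtain ⟨K, hK, h0⟩ := Pool.Agent.Results.MP_4011c3_nt.AlmostAllAlmostPrime.result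
  refine ⟨K, hK, fun q hq => ?_⟩
  obtain ⟨E, hE, h⟩ := exc_nat q hq (bad K)
  refine ⟨E, hE, fun α hα hαE m hm => ?_⟩
  obtain ⟨η, hη, -, h1, -⟩ := h α hα hαE m
  refine ⟨η, hη, fun U => ?_⟩
  obtain ⟨C, hC, h2⟩ := h0 m hm (U + 1)
  refine ⟨5 * (|C| * 2 ^ ((U : ℝ) + 1)) + 1, ?_⟩
  have h3 := h1 ((U : ℝ) + 1) C (by positivity) (fun Y hY => by
    have h4 := h2 Y (by omega)
    have hlog : 0 < Real.log Y := Real.log_pos (by exact_mod_cast (by omega : 1 < Y))
    have e1 : (Real.log Y) ^ (-((U : ℝ) + 1)) = (Real.log Y ^ (U + 1))⁻¹ := by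
      rw [Real.rpow_neg hlog.le]
      congr 1
      exact_mod_cast Real.rpow_natCast (Real.log Y) (U + 1)
    have e2 : cn (bad K m) Y ≤
        (((Icc 1 Y).filter (fun n : ℕ => Admissible m n ∧ ¬ Rep K m n)).card : ℝ) := by
      unfold cn
      refine Nat.cast_le.2 (card_le_card ?_)
      intro n hn
      rw [mem_filter] at hn ⊢
      exact hn
    refine e2.trans (h4.trans (le_of_eq ?_))
    rw [e1]
    ring)
  filter_upwards [h3, eventually_ge_atTop 3] with N hN hN3 P hdeg hlead hco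
  have h4 := hN P hdeg hlead hco
  have h5 : (exceptions K m α P N : ℝ) ≤ cnP (bad K m) α P N := by
    unfold exceptions cnP cn
    norm_cast
    refine card_le_card ?_
    intro n hn
    rw [mem_filter] at hn ⊢
    exact hn
  refine h5.trans (h4.trans ?_)
  have hlog1 : 1 ≤ Real.log N := by
    rw [← Real.log_exp 1]
    refine Real.log_le_log (Real.exp_pos 1) ?_
    have h6 : (3 : ℝ) ≤ N := by exact_mod_cast hN3
    linarith [Real.exp_one_lt_d9]
  have hlog : 0 < Real.log N := by linarith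
  have e1 : (Real.log N) ^ (-((U : ℝ) + 1)) ≤ (Real.log N ^ U)⁻¹ := by
    rw [Real.rpow_neg hlog.le]
    refine inv_anti₀ (by positivity) ?_
    have e2 : Real.log N ^ U = Real.log N ^ (U : ℝ) := (Real.rpow_natCast _ _).symm
    rw [e2]
    exact Real.rpow_le_rpow_of_exponent_le hlog1 (by linarith)
  have hc : 0 ≤ 5 * (|C| * 2 ^ ((U : ℝ) + 1)) + 1 := by positivity
  rw [div_eq_mul_inv, mul_assoc _ (N : ℝ)]
  refine mul_le_mul_of_nonneg_left ?_ hc
  exact mul_le_mul_of_nonneg_left e1 (Nat.cast_nonneg N)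

end Pool.Agent.Results.MP_4011c3_nt.AlongRealMultiples
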