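import Mathlib
import Pool.Agent.Results.MP_31d0eb_nt.FewBadScales

set_option autoImplicit false

/-!
# Both assertions, with genuine primes, for large `m`

`good m n` is the set of the primes `p < n` for which `q = ⌊(n - p) / m⌋`, `p_q - q + 1` and `q ^ 2 - 2` are all
prime, so an element of `good m n` answers both questions for the pair `(m, n)`.

(1) There are `θ < 1` and `C` such that `good m n` is nonempty for all pairs with `m ≥ C n ^ θ`, `n > 2 m + 1`, and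
it has at least `c m / log n` elements if moreover `n ≥ 4 m`.

(2) For a positive proportion of the integers `n` the same is true for ALL `m ≥ (log n) / 4` with `n > 2 m + 1`
outside at most `K` dyadic blocks `[2 ^ j, 2 ^ (j + 1))`, where `K` does not depend on `n`.
-/

namespace Pool.Agent.Results.MP_4011c3_nt.LargeMultipliers

open Finset Filter

/-- the primes `p < n` for which `q = ⌊(n - p) / m⌋`, `p_q - q + 1` and `q ^ 2 - 2` are all prime; here
`p_q = Nat.nth Nat.Prime (q - 1)` is the `q`-th prime -/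
noncomputable def good (m n : ℕ) : Finset ℕ :=
  (range n).filter (fun p => p.Prime ∧ ((n - p) / m).Prime ∧
    (Nat.nth Nat.Prime ((n - p) / m - 1) - (n - p) / m + 1).Prime ∧ (((n - p) / m) ^ 2 - 2).Prime)

lemma nth_one : Nat.nth Nat.Prime 1 = 3 := Nat.nth_count (p := Nat.Prime) (n := 3) Nat.prime_three ▸ by
  have : Nat.count Nat.Prime 3 = 1 := by decide
  rw [this]

lemma nth_two : Nat.nth Nat.Prime 2 = 5 := Nat.nth_count (p := Nat.Prime) (n := 5) Nat.prime_five ▸ by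
  have : Nat.count Nat.Prime 5 = 2 := by decide
  rw [this]

lemma mem_good {m n p : ℕ} (hm : 0 < m) (hp : p.Prime) (h1 : n < p + 4 * m) (h2 : p + 2 * m ≤ n) :
    p ∈ good m n := by
  have hq : (n - p) / m = 2 ∨ (n - p) / m = 3 := by
    have h3 : 2 ≤ (n - p) / m := (Nat.le_div_iff_mul_le hm).2 (by omega)
    have h4 : (n - p) / m < 4 := (Nat.div_lt_iff_lt_mul hm).2 (by omega)
    omega
  unfold good
  rw [mem_filter, mem_range]
  refine ⟨by omega, hp, ?_⟩
  rcases hq with hq | hq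
  · rw [hq]
    refine ⟨Nat.prime_two, ?_, by norm_num⟩
    rw [show 2 - 1 = 1 from rfl, nth_one]
    norm_num
  · rw [hq]
    refine ⟨Nat.prime_three, ?_, by norm_num⟩
    rw [show 3 - 1 = 2 from rfl, nth_two]
    norm_num

lemma card_good {m n u v : ℕ} (hm : 0 < m) (hu : n ≤ u + 4 * m) (hv : v + 2 * m ≤ n) :
    ((Ioc u v).filter Nat.Prime).card ≤ (good m n).card := by
  refine card_le_card fun p hp => ?_
  rw [mem_filter, mem_Ioc] at hp
  exact mem_good hm hp.2 (by omega) (by omega)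

/-- **Both questions for large `m`.** -/
theorem result :
    (∃ θ : ℝ, 0 < θ ∧ θ < 1 ∧ ∃ C c : ℝ, 0 < C ∧ 0 < c ∧ ∀ m n : ℕ, C * (n : ℝ) ^ θ ≤ m → 2 * m + 1 < n →
      (good m n).Nonempty ∧ (4 * m ≤ n → c * m / Real.log n ≤ ((good m n).card : ℝ))) ∧
    (∃ κ c : ℝ, 0 < κ ∧ 0 < c ∧ ∃ K : ℕ, ∀ᶠ X : ℕ in atTop, ∃ A : Finset ℕ, A ⊆ Ioc X (2 * X) ∧
      κ * X ≤ (A.card : ℝ) ∧ ∀ n ∈ A, ∃ J : Finset ℕ, J.card ≤ K ∧
        ∀ m : ℕ, Real.log n ≤ 4 * m → 2 * m + 1 < n → Nat.log 2 m ∉ J →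
          (good m n).Nonempty ∧ (4 * m ≤ n → c * m / Real.log n ≤ ((good m n).card : ℝ))) := by
  classical
  obtain ⟨-, ⟨θ, hθ0, hθ1, hS⟩, hP⟩ := Pool.Agent.Results.MP_31d0eb_nt.FewBadScales.result
  have hP := hP θ hθ0 hθ1.le hS
  obtain ⟨c, hc, X₀, hX₀, hS⟩ := hS
  have h1 : ∀ m n : ℕ, (X₀ : ℝ) * (n : ℝ) ^ θ ≤ m → 2 * m + 1 < n →
      (good m n).Nonempty ∧ (4 * m ≤ n → c * m / Real.log n ≤ ((good m n).card : ℝ)) := by
    intro m n hmn hn
    have hn1 : (1 : ℝ) ≤ n := by exact_mod_cast (by omega : 1 ≤ n)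
    have hX0r : (2 : ℝ) ≤ X₀ := by exact_mod_cast hX₀
    have hnθ : (1 : ℝ) ≤ (n : ℝ) ^ θ := Real.one_le_rpow hn1 hθ0.le
    have hmX : (X₀ : ℝ) ≤ m := le_trans (by nlinarith) hmn
    have hmX' : X₀ ≤ m := by exact_mod_cast hmX
    have hm : 0 < m := by omega
    have hcard : 4 * m ≤ n → c * m / Real.log n ≤ ((good m n).card : ℝ) := by
      intro h4
      have hX : X₀ ≤ n - 3 * m := by omega
      have h5 : ((n - 3 * m : ℕ) : ℝ) ^ θ ≤ m := by
        have h5a : ((n - 3 * m : ℕ) : ℝ) ≤ (n : ℝ) := by exact_mod_cast (by omega : n - 3 * m ≤ n)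
        have h5b : ((n - 3 * m : ℕ) : ℝ) ^ θ ≤ (n : ℝ) ^ θ :=
          Real.rpow_le_rpow (Nat.cast_nonneg _) h5a hθ0.le
        nlinarith
      have h6 := hS (n - 3 * m) m hX h5 (by omega)
      have h7 := card_good (m := m) (n := n) (u := n - 3 * m) (v := n - 3 * m + m) hm (by omega) (by omega)
      have h8 : (((Ioc (n - 3 * m) (n - 3 * m + m)).filter Nat.Prime).card : ℝ) ≤ ((good m n).card : ℝ) := by
        exact_mod_cast h7
      refine le_trans ?_ (h6.trans h8)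
      have h9 : (2 : ℝ) ≤ ((n - 3 * m : ℕ) : ℝ) := by exact_mod_cast (by omega : 2 ≤ n - 3 * m)
      have h10 : 0 < Real.log ((n - 3 * m : ℕ) : ℝ) := Real.log_pos (by linarith)
      have h11 : Real.log ((n - 3 * m : ℕ) : ℝ) ≤ Real.log n :=
        Real.log_le_log (by linarith) (by exact_mod_cast (by omega : n - 3 * m ≤ n))
      exact div_le_div_of_nonneg_left (by positivity) h10 h11
    refine ⟨?_, hcard⟩
    by_cases h4 : 4 * m ≤ n
    · have h5 := hcard h4
      have h6 : 0 < c * m / Real.log n := by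
        have : 0 < Real.log n := Real.log_pos (by exact_mod_cast (by omega : 1 < n))
        have : (0 : ℝ) < m := by exact_mod_cast hm
        positivity
      rw [← Finset.card_pos]
      have h7 : (0 : ℝ) < ((good m n).card : ℝ) := lt_of_lt_of_le h6 h5
      exact_mod_cast h7
    · exact ⟨2, mem_good hm Nat.prime_two (by omega) (by omega)⟩
  refine ⟨⟨θ, hθ0, hθ1, X₀, c, by exact_mod_cast (by omega : 0 < X₀), hc, h1⟩, ?_⟩
  obtain ⟨c₁, c₂, κ, hc₁, hc₂, hκ, hP⟩ := hP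
  obtain ⟨K, hK⟩ := hP (c₁ / 8) (by positivity)
  refine ⟨κ, min c c₁, hκ, lt_min hc hc₁, K, ?_⟩
  have hbig : ∀ᶠ X : ℕ in atTop, (X₀ : ℝ) * ((2 * X : ℕ) : ℝ) ^ θ ≤ (X : ℝ) / 16 := by
    have h1 : Tendsto (fun x : ℝ => x ^ (θ - 1)) atTop (nhds 0) := by
      have := tendsto_rpow_neg_atTop (show 0 < 1 - θ by linarith)
      simpa using this
    have h2 : Tendsto (fun X : ℕ => (2 * X : ℕ)) atTop atTop :=
      tendsto_id.const_mul_atTop' (by norm_num)
    have h3 : Tendsto (fun X : ℕ => ((2 * X : ℕ) : ℝ) ^ (θ - 1)) atTop (nhds 0) :=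
      h1.comp (tendsto_natCast_atTop_atTop.comp h2)
    have hX0r : (0 : ℝ) < X₀ := by exact_mod_cast (by omega : 0 < X₀)
    have h4 : ∀ᶠ X : ℕ in atTop, ((2 * X : ℕ) : ℝ) ^ (θ - 1) < 1 / (32 * X₀) :=
      h3.eventually_lt_const (by positivity)
    filter_upwards [h4, eventually_ge_atTop 1] with X hX hX1
    have h5 : (0 : ℝ) < ((2 * X : ℕ) : ℝ) := by exact_mod_cast (by omega : 0 < 2 * X)
    have h6 : ((2 * X : ℕ) : ℝ) ^ θ = ((2 * X : ℕ) : ℝ) ^ (θ - 1) * ((2 * X : ℕ) : ℝ) := by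
      rw [Real.rpow_sub_one h5.ne']
      field_simp
    rw [h6]
    have h7 : ((2 * X : ℕ) : ℝ) ^ (θ - 1) * ((2 * X : ℕ) : ℝ) ≤ 1 / (32 * X₀) * ((2 * X : ℕ) : ℝ) :=
      mul_le_mul_of_nonneg_right hX.le h5.le
    calc (X₀ : ℝ) * (((2 * X : ℕ) : ℝ) ^ (θ - 1) * ((2 * X : ℕ) : ℝ))
        ≤ X₀ * (1 / (32 * X₀) * ((2 * X : ℕ) : ℝ)) := mul_le_mul_of_nonneg_left h7 hX0r.le
      _ = (X : ℝ) / 16 := by
          push_cast
          field_simp
          ring
  filter_upwards [hK, hbig, eventually_ge_atTop 4] with X hX hXb hX4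
  have hXθ : (X : ℝ) ^ θ ≤ (X : ℝ) := by
    have h1 : (1 : ℝ) ≤ X := by exact_mod_cast (by omega : 1 ≤ X)
    calc (X : ℝ) ^ θ ≤ (X : ℝ) ^ (1 : ℝ) := Real.rpow_le_rpow_of_exponent_le h1 hθ1.le
      _ = X := Real.rpow_one _
  have hX := hX X hXθ le_rfl
  refine ⟨(Ioc X (X + X)).filter (fun n =>
    Pool.Agent.Results.MP_31d0eb_nt.FewBadScales.badScales c₁ c₂ (c₁ / 8) X n ≤ K), ?_, hX, ?_⟩
  · rw [two_mul]
    exact filter_subset _ _
  intro n hn
  rw [mem_filter, mem_Ioc] at hn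
  obtain ⟨⟨hn1, hn2⟩, hbad⟩ := hn
  unfold Pool.Agent.Results.MP_31d0eb_nt.FewBadScales.badScales at hbad
  refine ⟨((Finset.range (Nat.log 2 X + 1)).filter (fun j => Real.log n ≤ (2 : ℝ) ^ j ∧
    ¬ Pool.Agent.Results.MP_31d0eb_nt.FewBadScales.ConstantDensity c₁ c₂ (c₁ / 8) n (2 ^ j))).image
      (fun j => j - 3), le_trans card_image_le hbad, ?_⟩
  intro m hm1 hm2 hmJ
  have hlogn : 0 < Real.log n := Real.log_pos (by exact_mod_cast (by omega : 1 < n))
  have hm : 0 < m := by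
    by_contra h0
    have : m = 0 := by omega
    subst this
    norm_num at hm1
    linarith
  have hmr : (0 : ℝ) < m := by exact_mod_cast hm
  by_cases h16 : 16 * m ≤ n
  · -- scale of the block
    obtain ⟨l, hl⟩ : ∃ l, l = Nat.log 2 m := ⟨_, rfl⟩
    have hl1 : 2 ^ l ≤ m := by rw [hl]; exact Nat.pow_log_le_self 2 hm.ne'
    have hl2 : m < 2 ^ (l + 1) := by rw [hl]; exact Nat.lt_pow_succ_log_self (by norm_num) m
    have hD1 : 2 ^ (l + 3) ≤ 8 * m := by rw [pow_add]; omega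
    have hD2 : 4 * m < 2 ^ (l + 3) := by
      rw [pow_add] at hl2 ⊢
      omega
    have hD2r : 4 * (m : ℝ) < (2 : ℝ) ^ (l + 3) := by exact_mod_cast hD2
    have hlX : l + 3 ≤ Nat.log 2 X := by
      refine (Nat.le_log_iff_pow_le (by norm_num) (by omega)).2 ?_
      omega
    have hcd : Pool.Agent.Results.MP_31d0eb_nt.FewBadScales.ConstantDensity c₁ c₂ (c₁ / 8) n (2 ^ (l + 3)) := by
      by_contra hcd
      apply hmJ
      rw [mem_image]
      refine ⟨l + 3, ?_, by omega⟩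
      rw [mem_filter, mem_range]
      exact ⟨by omega, by linarith, hcd⟩
    obtain ⟨lam, hlam1, -, hlam⟩ := hcd
    have h5 := hlam (n - 4 * m) (n - 2 * m) (by omega) (by omega) (by omega)
    have h6 := card_good (m := m) (n := n) (u := n - 4 * m) (v := n - 2 * m) hm (by omega) (by omega)
    have h7 : (((Ioc (n - 4 * m) (n - 2 * m)).filter Nat.Prime).card : ℝ) ≤ ((good m n).card : ℝ) := by
      exact_mod_cast h6
    have h8 : (((n - 2 * m : ℕ) : ℝ) - ((n - 4 * m : ℕ) : ℝ)) = 2 * m := by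
      rw [Nat.cast_sub (by omega), Nat.cast_sub (by omega)]
      push_cast
      ring
    rw [h8] at h5
    have h9 := (abs_le.1 h5).1
    have hD1r : (((2 ^ (l + 3) : ℕ)) : ℝ) ≤ 8 * m := by exact_mod_cast hD1
    have h10 : c₁ / 8 * ((2 ^ (l + 3) : ℕ) : ℝ) / Real.log n ≤ c₁ * m / Real.log n := by
      refine div_le_div_of_nonneg_right ?_ hlogn.le
      nlinarith
    have h11 : 2 * (c₁ * m / Real.log n) ≤ lam * (2 * m) / Real.log n := by
      rw [← mul_div_assoc]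
      refine div_le_div_of_nonneg_right ?_ hlogn.le
      nlinarith
    have h12 : c₁ * m / Real.log n ≤ ((good m n).card : ℝ) := by linarith
    have h13 : min c c₁ * m / Real.log n ≤ ((good m n).card : ℝ) := by
      refine le_trans ?_ h12
      refine div_le_div_of_nonneg_right ?_ hlogn.le
      exact mul_le_mul_of_nonneg_right (min_le_right _ _) hmr.le
    refine ⟨?_, fun _ => h13⟩
    rw [← Finset.card_pos]
    have h14 : (0 : ℝ) < ((good m n).card : ℝ) := lt_of_lt_of_le (by positivity) h12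
    exact_mod_cast h14
  · have h5 : (X₀ : ℝ) * (n : ℝ) ^ θ ≤ m := by
      have h6 : (n : ℝ) ^ θ ≤ ((2 * X : ℕ) : ℝ) ^ θ :=
        Real.rpow_le_rpow (by positivity) (by exact_mod_cast (by omega : n ≤ 2 * X)) hθ0.le
      have h7 : (X : ℝ) / 16 ≤ m := by
        have : (X : ℝ) ≤ 16 * m := by exact_mod_cast (by omega : X ≤ 16 * m)
        linarith
      have h8 : (0 : ℝ) ≤ X₀ := Nat.cast_nonneg _
      calc (X₀ : ℝ) * (n : ℝ) ^ θ ≤ X₀ * ((2 * X : ℕ) : ℝ) ^ θ := mul_le_mul_of_nonneg_left h6 h8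
        _ ≤ m := hXb.trans h7
    obtain ⟨h6, h7⟩ := h1 m n h5 hm2
    refine ⟨h6, fun h4 => le_trans ?_ (h7 h4)⟩
    refine div_le_div_of_nonneg_right ?_ hlogn.le
    exact mul_le_mul_of_nonneg_right (min_le_left _ _) hmr.le

end Pool.Agent.Results.MP_4011c3_nt.LargeMultipliers
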