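import Pool.Agent.Q197.SP.R401

/-!
# The largest prime `p < n` making `⌊(n - p) / m⌋` prime, in Cramér's random model

`A` is Cramér's random model of the primes. Let `m ≥ 1`. In the model, almost surely, the largest element `p < n` for
which `q = ⌊(n - p) / m⌋` and `q ^ 2 - 2` are elements is at distance at most `(8 + o(1)) log² n (log log n)²` from `n`,
where the constant `8` cannot be replaced by a smaller one. The exponents of the numbers of the exceptional `n` and
the typical values of the distance are determined as well; they do not depend on `m`.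
-/

set_option autoImplicit false

namespace Pool.Agent.Results.MP_4011c3_nt.LargestPrimeLaw

open MeasureTheory Filter Pool.Agent.Q120.MF Pool.Agent.Q197.CI Pool.Agent.Q197.SP.R401
open scoped Topology

theorem result :
    (∃ (Ω : Type) (_ : MeasurableSpace Ω) (μ : Measure Ω) (A : Ω → Set ℕ), IsProbabilityMeasure μ ∧ IsCramer μ A) ∧
    ∀ (Ω : Type) [MeasurableSpace Ω] (μ : Measure Ω) [IsProbabilityMeasure μ] (A : Ω → Set ℕ), IsCramer μ A →
      ∀ m : ℕ, 1 ≤ m →
      -- the largest `p`
      (∀ c : ℝ, 8 < c → ∀ᵐ ω ∂μ, ∀ᶠ n : ℕ in atTop,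
        ∃ p : ℕ, (n : ℝ) - p ≤ c * (Real.log n ^ 2 * Real.log (Real.log n) ^ 2) ∧ Adm (A ω) m n p) ∧
      (∀ c : ℝ, 0 < c → c < 8 → ∀ᵐ ω ∂μ, Tendsto (fun N : ℕ =>
        Real.log (cntP (fun n => Far (A ω) m n (c * (Real.log n ^ 2 * Real.log (Real.log n) ^ 2))) N) / Real.log N)
          atTop (𝓝 (1 - c / 8))) ∧
      -- typical values
      (∀ t : ℝ, 0 < t → ∀ᵐ ω ∂μ, Tendsto (fun N : ℕ =>
        cntP (fun n => Far (A ω) m n (t * (Real.log n * Real.log (Real.log n) ^ 2))) N / N) atTop
          (𝓝 (Real.exp (-(t / 2))))) := by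
  refine ⟨all_parts.1, fun Ω _ μ _ A hA => ?_⟩
  exact (all_parts.2 Ω μ A hA).2

end Pool.Agent.Results.MP_4011c3_nt.LargestPrimeLaw
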