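import Pool.Agent.Q197.SP.R401

/-!
# Primes `p < n` making `⌊(n - p) / m⌋` prime, for all pairs `(m, n)`, in Cramér's random model

`A` is Cramér's random model of the primes. The second question asks for a prime `p < n` such that `q = ⌊(n - p) / m⌋`
and `q ^ 2 - 2` are primes. In the model, almost surely, such a `p` exists for all pairs `(m, n)` with `n ≥ C` and
`n ≥ C m`, for some `C`.
-/

set_option autoImplicit false

namespace Pool.Agent.Results.MP_4011c3_nt.RandomPrimesUniform

open MeasureTheory Filter Pool.Agent.Q120.MF Pool.Agent.Q197.CI Pool.Agent.Q197.SP.R401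
open scoped Topology

theorem result :
    (∃ (Ω : Type) (_ : MeasurableSpace Ω) (μ : Measure Ω) (A : Ω → Set ℕ), IsProbabilityMeasure μ ∧ IsCramer μ A) ∧
    ∀ (Ω : Type) [MeasurableSpace Ω] (μ : Measure Ω) [IsProbabilityMeasure μ] (A : Ω → Set ℕ), IsCramer μ A →
      ∀ᵐ ω ∂μ, ∃ C : ℕ, ∀ m n : ℕ, 1 ≤ m → C ≤ n → C * m ≤ n → ∃ p, Adm (A ω) m n p := by
  refine ⟨all_parts.1, fun Ω _ μ _ A hA => ?_⟩
  exact (all_parts.2 Ω μ A hA).1

end Pool.Agent.Results.MP_4011c3_nt.RandomPrimesUniform
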